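import Pool.Agent.helper68.QZ.Spec
import Pool.Agent.helper53.EQ.LBC

/-!
# Project qz, row MR: choice of the radius
-/

set_option autoImplicit false
set_option linter.unusedVariables false

namespace Pool.Agent.QZ

open N1f72dd46 Filter MeasureTheory Complex Metric Pool.Agent.helper6.LD
open scoped ComplexConjugate

theorem MR : MR_stmt := by
  refine ⟨2624, by norm_num, ?_⟩
  intro R S m a hR ha
  obtain ⟨r, hr1, hr2, hr3, hr4⟩ := Pool.Agent.EQ.helper53_radius (δ := 1 / 8) (by norm_num)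
    le_rfl S m (fun ρ => max ((a ρ / R - 1) / 64) 0) (by
      intro ρ hρ
      obtain ⟨h1, h2⟩ := ha ρ hρ
      have h3 : a ρ / R ≤ 4 := by rw [div_le_iff₀ hR]; exact h2
      refine ⟨le_max_right _ _, max_le ?_ (by norm_num)⟩
      linarith)
  have hr1' : 1 / 64 ≤ r := by linarith
  have hr2' : r ≤ 1 / 32 := by linarith
  refine ⟨R * (64 * r + 1), ?_, ?_, ?_⟩
  · nlinarith
  · nlinarith
  · have h0 : (328 : ℝ) / (1 / 8) = 2624 := by norm_num
    rw [h0] at hr4
    refine (Real.exp_le_exp.2 hr4).trans ?_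
    rw [Real.exp_sum]
    refine Finset.prod_le_prod (fun _ _ => (Real.exp_pos _).le) fun ρ hρ => ?_
    have h1 : r - max ((a ρ / R - 1) / 64) 0 ≠ 0 := sub_ne_zero.2 (hr3 ρ hρ)
    rw [Real.exp_nat_mul, Real.exp_log_eq_abs h1]
    refine pow_le_pow_left₀ (abs_nonneg _) ?_ _
    have h2 : |R * (64 * r + 1) - a ρ| / R = |64 * r + 1 - a ρ / R| := by
      rw [← abs_of_pos hR, ← abs_div, abs_of_pos hR]
      congr 1
      field_simp
    rw [h2]
    rcases le_total ((a ρ / R - 1) / 64) 0 with h3 | h3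
    · rw [max_eq_right h3, sub_zero, abs_of_nonneg (by linarith), abs_of_nonneg (by linarith)]
      linarith
    · rw [max_eq_left h3]
      have h4 : 64 * r + 1 - a ρ / R = 64 * (r - (a ρ / R - 1) / 64) := by ring
      rw [h4, abs_mul, abs_of_pos (by norm_num : (0 : ℝ) < 64)]
      have h5 := abs_nonneg (r - (a ρ / R - 1) / 64)
      linarith

end Pool.Agent.QZ
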